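import Mathlib
import Pool.Agent.R727.Variants
import Pool.Agent.R727.VariantsLower

set_option autoImplicit false

/-!
# The minimum degree of the variant `T_n^a` is not determined by `n` and the rank of `a`

Let `n = 2^46` and `r = 2^22`. If all kernel classes of `a` have the same size `2^24` then
`μ(T_n^a) ≥ 2(n - r)`. If all but one of the kernel classes of `b` are singletons then
`μ(T_n^b) < 2(n - r)`.
-/

namespace Pool.Agent.Results.MP_6b192e_al.KernelType

open Pool.Agent.R727.Variants

lemma rank_eq {n : ℕ} (a : Fin n → Fin n) {ι : Type} (f : ι → Fin n) (hf : Function.Injective f)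
    (h : Set.range a = Set.range f) : rank a = Nat.card ι := by
  rw [rank, h, ← Nat.card_coe_set_eq, Nat.card_range_of_injective hf]

/-- Every variant has some faithful representation. -/
lemma emb_exists {X : Type} (a : X → X) : Emb a (Σ _i : Unit, (Unit → X) ⊕ X) :=
  emb_of_components (fun _ => X) (fun _ => Unit) (fun _ => X) a (fun _ x => x) (fun _ x => a x)
    (fun _ _ => rfl) (fun _ x _ => x) (fun _ x => Or.inr ⟨x, (), rfl⟩) (fun _ _ h => h ())

lemma le_minDegree {X : Type} [Fintype X] [Nonempty X] {n : ℕ} (e : X ≃ Fin n) (a : X → X) {B : ℕ}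
    (h : ∀ m, Emb a (Fin m) → B ≤ m) : B ≤ minDegree (Variant fun i => e (a (e.symm i))) := by
  classical
  have hne : {m | 1 ≤ m ∧ ∃ f : Variant (fun i => e (a (e.symm i))) →ₙ* Function.End (Fin m),
      Function.Injective f}.Nonempty := by
    refine ⟨Fintype.card (Σ _i : Unit, (Unit → X) ⊕ X), ?_, (emb_iff e a).2
      ((emb_exists a).congr (Fintype.equivFin _))⟩
    exact Fintype.card_pos_iff.2 ⟨⟨(), Sum.inr (Classical.arbitrary X)⟩⟩
  obtain ⟨_, hm⟩ := Nat.sInf_mem hne
  exact h _ ((emb_iff e a).1 hm)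

/-- The balanced sandwich element: `r` kernel classes of size `K`. -/
def bal (r K : ℕ) [NeZero K] : Fin r × Fin K → Fin r × Fin K := fun i => (i.1, 0)

/-- The lower bound for the balanced type. -/
lemma bal_lower (r K : ℕ) [NeZero K] [NeZero r] {s t k B : ℕ} (hs : 3 * s + 1 ≤ r)
    (hBs : B ≤ s ^ 3) (ht : t ^ 2 ≤ 2 * ((r - 1) * K)) (hk : 2 ≤ k)
    (hkL : k ^ 3 ≤ K) (hBk : 6 * B ≤ (r * r - r) * k)
    (hB1 : B ≤ 2 * (r * (K - 1))) (hB2 : B ≤ r * K + r * (K - 1))
    (hB3 : 2 * B ≤ 2 * (r * t) + 3 * (r * (K - 1))) {n : ℕ} (e : Fin r × Fin K ≃ Fin n) :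
    B ≤ minDegree (Variant fun i => e (bal r K (e.symm i))) := by
  refine le_minDegree e (bal r K) fun m hm => ?_
  obtain ⟨ψ, hψ, hmul⟩ := hm
  have h1 := Pool.Agent.R727.VariantsLower.lower_bound (l0 := (0 : Fin K)) (ψ := ψ) hmul hψ
    (s := s) (t := t) (k := k) (B := B) hs hBs (by rw [Fintype.card_fin]; exact ht) hk
    (by rw [Fintype.card_fin]; exact hkL) hBk (by rw [Fintype.card_fin]; exact hB1)
    (by rw [Fintype.card_fin]; exact hB2) (by rw [Fintype.card_fin]; exact hB3)
  rwa [Fintype.card_fin] at h1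

lemma rank_bal (r K : ℕ) [NeZero K] {n : ℕ} (e : Fin r × Fin K ≃ Fin n) :
    rank (fun i => e (bal r K (e.symm i))) = r := by
  rw [rank_eq _ (fun c : Fin r => e (c, 0)) (fun c c' h => by
    have := e.injective h
    exact congrArg Prod.fst this)]
  · simp
  · ext x
    constructor
    · rintro ⟨i, rfl⟩
      exact ⟨(e.symm i).1, rfl⟩
    · rintro ⟨c, rfl⟩
      exact ⟨e (c, 0), by simp [bal]⟩

/-- The unbalanced sandwich element: one big kernel class, all others are singletons. -/
def unb (r' K : ℕ) [NeZero K] : Fin r' ⊕ Fin K → Fin r' ⊕ Fin K :=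
  Sum.elim Sum.inl fun _ => Sum.inr 0

lemma rank_unb (r' K : ℕ) [NeZero K] {n : ℕ} (e : Fin r' ⊕ Fin K ≃ Fin n) :
    rank (fun i => e (unb r' K (e.symm i))) = r' + 1 := by
  rw [rank_eq _ (fun c : Fin r' ⊕ Unit => e (Sum.map id (fun _ => 0) c)) (fun c c' h => by
    have h1 := e.injective h
    rcases c with c | c <;> rcases c' with c' | c'
    · simpa using h1
    · simp at h1
    · simp at h1
    · rfl)]
  · simp
  · ext x
    constructor
    · rintro ⟨i, rfl⟩
      rcases h : e.symm i with c | k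
      · exact ⟨Sum.inl c, by simp [unb, h]⟩
      · exact ⟨Sum.inr (), by simp [unb, h]⟩
    · rintro ⟨c | c, rfl⟩
      · exact ⟨e (Sum.inl c), by simp [unb]⟩
      · exact ⟨e (Sum.inr 0), by simp [unb]⟩

/-- The upper bound for the unbalanced type. -/
lemma unb_upper (r' K q1 q2 : ℕ) [NeZero K] (hq2 : 0 < q2) (hq : K ≤ q1 * q2) {n : ℕ}
    (e : Fin r' ⊕ Fin K ≃ Fin n) :
    minDegree (Variant fun i => e (unb r' K (e.symm i))) ≤
      ((r' + q1) + n) + ((r' + q2) ^ 2 + (n + 1) / 2) := by
  classical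
  have hn : 0 < n := by
    rcases Nat.eq_zero_or_pos n with h | h
    · subst h
      exact (e (Sum.inr 0)).elim0
    · exact h
  let q : Bool → ℕ := fun i => if i then q2 else q1
  let T : Bool → ℕ := fun i => if i then 2 else 1
  let G : Bool → ℕ := fun i => if i then (n + 1) / 2 else n
  have hT : ∀ i, Nonempty (Fin (T i)) := by
    intro i
    cases i
    · exact ⟨⟨0, by simp [T]⟩⟩
    · exact ⟨⟨0, by simp [T]⟩⟩
  let d : Bool → ℕ → ℕ := fun i k => if i then k % q2 else k / q2
  have hd : ∀ i k, k < K → d i k < q i := by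
    intro i k hk
    cases i
    · simp only [d, q, Bool.false_eq_true, if_false]
      apply Nat.div_lt_of_lt_mul
      calc k < K := hk
        _ ≤ q1 * q2 := hq
        _ = q2 * q1 := mul_comm _ _
    · simp only [d, q, if_true]
      exact Nat.mod_lt _ hq2
  let φ : ∀ i : Bool, Fin r' ⊕ Fin K → Fin r' ⊕ Fin (q i) := fun i =>
    Sum.map id fun k => ⟨d i k, hd i k k.2⟩
  let α : ∀ i : Bool, Fin r' ⊕ Fin (q i) → Fin r' ⊕ Fin K := fun i =>
    Sum.elim Sum.inl fun _ => Sum.inr 0
  let g : ∀ i : Bool, Fin (G i) → Fin (T i) → Fin r' ⊕ Fin K := fun i k τ =>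
    e.symm ⟨min (T i * k + τ) (n - 1), by omega⟩
  have hemb : Emb (unb r' K)
      (Σ i : Bool, ((Fin (T i) → (Fin r' ⊕ Fin (q i))) ⊕ Fin (G i))) := by
    refine emb_of_components (fun i => Fin r' ⊕ Fin (q i)) (fun i => Fin (T i))
      (fun i => Fin (G i)) (unb r' K) φ α ?_ g ?_ ?_
    · intro i x
      rcases x with c | k <;> rfl
    · intro i x
      right
      cases i
      · refine ⟨⟨e x, ?_⟩, ⟨0, ?_⟩, ?_⟩
        · simp [G]
        · simp [T]
        · simp only [g]
          rw [Equiv.symm_apply_eq]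
          apply Fin.ext
          simp only [T, Bool.false_eq_true, if_false]
          have := (e x).2
          omega
      · refine ⟨⟨e x / 2, ?_⟩, ⟨e x % 2, ?_⟩, ?_⟩
        · simp only [G, if_true]
          have := (e x).2
          omega
        · simp only [T, if_true]
          omega
        · simp only [g]
          rw [Equiv.symm_apply_eq]
          apply Fin.ext
          simp only [T, if_true]
          have := (e x).2
          omega
    · intro x y h
      have h0 := h false
      have h1 := h true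
      rcases x with c | k <;> rcases y with c' | k'
      · simpa [φ] using h0
      · simp [φ] at h0
      · simp [φ] at h0
      · simp only [φ, Sum.map_inr, Sum.inr.injEq, Fin.mk.injEq] at h0 h1
        simp only [d, Bool.false_eq_true, if_false] at h0
        simp only [d, if_true] at h1
        congr 1
        apply Fin.ext
        rw [← Nat.div_add_mod (k : ℕ) q2, ← Nat.div_add_mod (k' : ℕ) q2, h0, h1]
  have hcard : Fintype.card (Σ i : Bool, ((Fin (T i) → (Fin r' ⊕ Fin (q i))) ⊕ Fin (G i))) =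
      ((r' + q1) + n) + ((r' + q2) ^ 2 + (n + 1) / 2) := by
    rw [Fintype.card_sigma, Fintype.sum_bool]
    simp only [Fintype.card_sum, Fintype.card_fun, Fintype.card_fin]
    simp only [T, q, G, Bool.false_eq_true, if_false, if_true, pow_one]
    ring
  have h1 := minDegree_le e (unb r' K) hemb (by rw [hcard]; omega)
  rw [hcard] at h1
  exact h1

/-- **Full negative answer to Q1.** There are `n` and `a, b ∈ T_n` of the same rank such that the
variants `T_n^a` and `T_n^b` have different minimum degrees. (Here `n = 2^46`, the rank is `2^22`,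
the kernel classes of `a` all have size `2^24`, and all kernel classes of `b` but one are
singletons.) -/
theorem result : ∃ (n : ℕ) (a b : Fin n → Fin n), rank a = rank b ∧
    minDegree (Variant a) ≠ minDegree (Variant b) := by
  have key : ∀ r K r' K' n : ℕ, r = 2 ^ 22 → K = 2 ^ 24 → r' + 1 = r → r' + K' = n → n = r * K →
      ∃ (a b : Fin n → Fin n), rank a = rank b ∧
        minDegree (Variant b) < minDegree (Variant a) := by
    intro r K r' K' n hr hK hr' hK' hn
    have hrr' : r' = 2 ^ 22 - 1 := by omega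
    have hn' : n = 2 ^ 46 := by rw [hn, hr, hK]; norm_num
    have hK'' : K' = 2 ^ 46 - (2 ^ 22 - 1) := by omega
    have : NeZero K := ⟨by rw [hK]; norm_num⟩
    have : NeZero r := ⟨by rw [hr]; norm_num⟩
    have : NeZero K' := ⟨by rw [hK'']; norm_num⟩
    have e1 : Fin r × Fin K ≃ Fin n :=
      Fintype.equivFinOfCardEq (by rw [Fintype.card_prod, Fintype.card_fin, Fintype.card_fin, hn])
    have e2 : Fin r' ⊕ Fin K' ≃ Fin n :=
      Fintype.equivFinOfCardEq (by rw [Fintype.card_sum, Fintype.card_fin, Fintype.card_fin, hK'])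
    refine ⟨fun i => e1 (bal r K (e1.symm i)), fun i => e2 (unb r' K' (e2.symm i)), ?_, ?_⟩
    · rw [rank_bal, rank_unb, hr']
    · have hlow := bal_lower r K (s := 2 ^ 20) (t := 2 ^ 23) (k := 2 ^ 8)
        (B := 2 ^ 47 - 2 ^ 23) (by rw [hr]; norm_num) (by norm_num)
        (by rw [hr, hK]; norm_num) (by norm_num) (by rw [hK]; norm_num)
        (by rw [hr]; norm_num) (by rw [hr, hK]; norm_num) (by rw [hr, hK]; norm_num)
        (by rw [hr, hK]; norm_num) e1
      have hup := unb_upper r' K' (2 ^ 39) (2 ^ 7) (by norm_num) (by rw [hK'']; norm_num) e2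
      have hnum : ((r' + 2 ^ 39) + n) + ((r' + 2 ^ 7) ^ 2 + (n + 1) / 2) < 2 ^ 47 - 2 ^ 23 := by
        rw [hrr', hn']; norm_num
      exact lt_of_le_of_lt hup (lt_of_lt_of_le hnum hlow)
  obtain ⟨a, b, h1, h2⟩ := key (2 ^ 22) (2 ^ 24) (2 ^ 22 - 1) (2 ^ 46 - (2 ^ 22 - 1)) (2 ^ 46)
    rfl rfl (by norm_num) (by norm_num) (by norm_num)
  exact ⟨2 ^ 46, a, b, h1, h2.ne'⟩

end Pool.Agent.Results.MP_6b192e_al.KernelType
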